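import Pool.Agent.TH896.RC.Defs

set_option autoImplicit false

/-!
# Exceptions to Robin's inequality: statements of the pieces
-/

namespace Pool.Agent.TH896.RC

open MeasureTheory Filter Topology Set Polynomial
open Pool.Agent.H24R2.JP (XX FF)

/-- LAPE: the Laplace transform of `E` -/
def S_LAPE : Prop := (∃ C : ℝ, ∀ v : ℝ, 0 ≤ v → |E v| ≤ C * Real.exp v) ∧ Measurable E ∧
  ∀ s : ℂ, 1 < s.re →
    IntegrableOn (fun v : ℝ => Complex.exp (-(s * v)) * (E v : ℂ)) (Ioi 0) ∧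
    Lp (fun v => (E v : ℂ)) s = -(deriv riemannZeta s / riemannZeta s) / s - 1 / (s - 1)

/-- LAPD: the Laplace transform of `D1` -/
def S_LAPD : Prop := ∀ s : ℂ, 0 < s.re →
  IntegrableOn (fun v : ℝ => Complex.exp (-(s * v)) * (D1 v : ℂ)) (Ioi 0) ∧
  Lp (fun v => (D1 v : ℂ)) s = 1 / s ^ 2 - 1 / s + logDeriv Complex.Gammaℝ s / s

/-- SUM: the sum over the roots is bounded -/
def S_SUM : Prop := ∀ P : ℕ → ℝ[X], ZA P →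
  ∃ S : ℝ, ∀ᶠ N in atTop, ((Rts (P N)).map (fun r => 1 / ‖1 / 4 - r‖)).sum ≤ S

/-- SUMRH: its limit under the Riemann hypothesis -/
def S_SUMRH : Prop := RiemannHypothesis → ∀ P : ℕ → ℝ[X], ZA P →
  Tendsto (fun N => ((Rts (P N)).map (fun r => 1 / ‖1 / 4 - r‖)).sum) atTop
    (𝓝 ((Real.eulerMascheroniConstant - Real.log (4 * Real.pi)) / 2 + 1))

/-- ML: partial fractions on the line `Re s = 2` -/
def S_ML : Prop := ∀ P : ℕ → ℝ[X], ZA P →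
  (∀ s : ℂ, s.re = 2 → Tendsto (fun N => ((Rts (P N)).map
    (fun r => 1 / (s - (1 / 2 + rt r)) + 1 / (s - (1 / 2 - rt r)))).sum) atTop
      (𝓝 (logDeriv XX (s - 1 / 2)))) ∧
  (∃ C : ℝ, ∀ᶠ N in atTop, ∀ s : ℂ, s.re = 2 → ((Rts (P N)).map
    (fun r => ‖1 / (s - (1 / 2 + rt r)) + 1 / (s - (1 / 2 - rt r))‖)).sum ≤ C * (1 + ‖s‖) ^ 3)

/-- FI: Fourier inversion for test functions -/
def S_FI : Prop := ∀ φ : ℝ → ℂ, Test φ →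
  Continuous (fun ξ : ℝ => Th φ (2 + ξ * Complex.I)) ∧
  (∀ k : ℕ, ∃ C : ℝ, ∀ ξ : ℝ, ‖Th φ (2 + ξ * Complex.I)‖ ≤ C / (1 + |ξ|) ^ k) ∧
  ∀ f : ℝ → ℂ, IntegrableOn (fun v : ℝ => Complex.exp (-(2 * v)) * f v) (Ioi 0) →
    Integrable (fun ξ : ℝ => Lp f (2 + ξ * Complex.I) * Th φ (2 + ξ * Complex.I)) ∧
    ∫ v : ℝ, f v * φ v = ((2 * Real.pi : ℝ) : ℂ)⁻¹ *
      ∫ ξ : ℝ, Lp f (2 + ξ * Complex.I) * Th φ (2 + ξ * Complex.I)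

/-- EF: the explicit formula -/
def S_EF : Prop := ∀ P : ℕ → ℝ[X], ZA P → ∀ φ : ℝ → ℂ, Test φ →
  Tendsto (fun N => ((Rts (P N)).map (fun r => ∫ v : ℝ, q r v * φ v)).sum) atTop
    (𝓝 (∫ v : ℝ, ((D1 v - E v : ℝ) : ℂ) * φ v))

/-- BK: `B` as an integral -/
def S_BK : Prop := ∀ v : ℝ, 0 < v →
  IntegrableOn (fun y : ℝ => E y * Real.exp (-y) * lam y) (Ioi v) ∧
  B v = -∫ y in Ioi v, E y * Real.exp (-y) * lam y

/-- BUP: upper bounds for `B` -/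
def S_BUP : Prop :=
  (∀ C θ : ℝ, θ < 1 → (∀ v : ℝ, 0 ≤ v → |E v| ≤ C * Real.exp (θ * v)) →
    ∃ C' : ℝ, ∀ v : ℝ, 1 ≤ v → |B v| ≤ C' * Real.exp ((θ - 1) * v)) ∧
  ∃ c C : ℝ, 0 < c ∧ ∀ v : ℝ, 1 ≤ v → |B v| ≤ C * Real.exp (-(c * Real.sqrt v))

/-- RHB: the bound under the Riemann hypothesis -/
def S_RHB : Prop := RiemannHypothesis →
  ∀ᶠ v in atTop, B v ≤ 3 / 20 * (Real.exp (-(v / 2)) / v)

/-- WIN: positive values of `B` in windows if the Riemann hypothesis fails -/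
def S_WIN : Prop := 1 / 2 < Theta → ∀ b ε : ℝ, 1 - Theta < b → 0 < ε → ε < 1 →
  ∀ᶠ v₀ : ℝ in atTop, ∃ v ∈ Icc ((1 - ε) * v₀) ((1 + ε) * v₀), Real.exp (-(b * v)) < B v

/-- FB: the comparison of `Fb` with `B` -/
def S_FB : Prop := ∀ᶠ Y : ℝ in atTop, Fb Y ≤ B (Real.log Y) + Real.eulerMascheroniConstant +
  Real.log (Real.log Y) - 1 / Real.log Y - 1 / 5 / (Real.sqrt Y * Real.log Y)

/-- DEC: the abundancy index is bounded by `Fb` -/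
def S_DEC : Prop := ∀ᶠ Y : ℝ in atTop, ∀ n : ℕ, 1 ≤ n →
  Real.log ((ArithmeticFunction.sigma 1 n : ℝ) / n) ≤ Real.log n / (Y * Real.log Y) + Fb Y

/-- LOWA: many exceptions, if `θ < 1 - b / 2` -/
def S_LOWA : Prop := ∀ b θ η C : ℝ, 0 < b → b < 1 / 2 → 1 / 2 ≤ θ → θ < 1 - b / 2 → 0 < η →
  (∀ v : ℝ, 0 ≤ v → |E v| ≤ C * Real.exp (θ * v)) →
  ∀ᶠ v : ℝ in atTop, Real.exp (-(b * v)) < B v →
    Real.exp (Real.exp ((1 - b / 2 - η) * v)) ≤ NN (Real.exp (2 * Real.exp v))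

/-- LOWB: many exceptions, in general -/
def S_LOWB : Prop := ∀ b b' : ℝ, 0 < b → b < 1 / 2 → b < b' →
  ∀ᶠ v : ℝ in atTop, Real.exp (-(b * v)) < B v →
    Real.exp (Real.exp ((1 - b') * v)) ≤ NN (Real.exp (2 * Real.exp v))

/-- CNT: few exceptions near `e^m` -/
def S_CNT : Prop := ∃ C : ℝ, ∀ᶠ m : ℕ in atTop, ∀ η : ℝ, (m : ℝ) ^ (-(1 / 2) : ℝ) ≤ η → η ≤ 1 / 16 →
  B (Real.log m) ≤ η →
  ({n : ℕ | Exc n ∧ (m : ℝ) ≤ Real.log n ∧ Real.log n < m + 1}.ncard : ℝ) ≤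
    Real.exp (C * Real.sqrt η * m * Real.log m)

/-- UP: few exceptions -/
def S_UP : Prop :=
  (∀ θ C η : ℝ, 1 / 2 ≤ θ → θ < 1 → 0 < η → (∀ v : ℝ, 0 ≤ v → |E v| ≤ C * Real.exp (θ * v)) →
    ∀ᶠ x : ℝ in atTop, (NN x : ℝ) ≤ Real.exp (Real.log x ^ ((1 + θ) / 2 + η))) ∧
  ∃ c : ℝ, 0 < c ∧ ∀ᶠ x : ℝ in atTop,
    (NN x : ℝ) ≤ Real.exp (Real.log x * Real.exp (-(c * Real.sqrt (Real.log (Real.log x)))))

end Pool.Agent.TH896.RC
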