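import Pool.Agent.H24R2.JP.Spec

set_option autoImplicit false

/-!
# Exceptions to Robin's inequality: definitions

Project RC (helper896), MP_db1c88_nt: the counting law for the exceptions to Robin's inequality.
-/

namespace Pool.Agent.TH896.RC

open MeasureTheory Filter Topology Set Polynomial
open Pool.Agent.H24R2.JP (XX FF)

/-- `E v = ψ(e^v) - e^v` -/
noncomputable def E (v : ℝ) : ℝ := Chebyshev.psi (Real.exp v) - Real.exp v

/-- `1/y + 1/y²` -/
noncomputable def lam (y : ℝ) : ℝ := 1 / y + 1 / y ^ 2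

/-- `B v = ∑_{n ≤ e^v} Λ(n) / (n log n) - γ - log v - (ψ(e^v) - e^v) / (v e^v)` -/
noncomputable def B (v : ℝ) : ℝ :=
  ∑ n ∈ Finset.Icc 2 ⌊Real.exp v⌋₊, ArithmeticFunction.vonMangoldt n / (n * Real.log n) -
    Real.eulerMascheroniConstant - Real.log v - E v / (Real.exp v * v)

/-- the contribution of the pole at `0` and of the trivial zeros to the explicit formula -/
noncomputable def D1 (v : ℝ) : ℝ :=
  -(1 + Real.log Real.pi / 2 + Real.eulerMascheroniConstant / 2) -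
    Real.log (1 - Real.exp (-2 * v)) / 2

/-- a square root of `r` -/
noncomputable def rt (r : ℂ) : ℂ := r ^ (1 / 2 : ℂ)

/-- `(e^{ρ v} - 1) / ρ` -/
noncomputable def q1 (ρ : ℂ) (v : ℝ) : ℂ := (Complex.exp (ρ * v) - 1) / ρ

/-- the contribution of the two zeros `1/2 ± rt r` of zeta -/
noncomputable def q (r : ℂ) (v : ℝ) : ℂ := q1 (1 / 2 + rt r) v + q1 (1 / 2 - rt r) v

/-- the real polynomials `P N` approximate `FF`, their roots are zeros of `FF`.
Recall `FF (z ^ 2) = XX z = 8 ξ(1/2 + z)`. -/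
def ZA (P : ℕ → ℝ[X]) : Prop :=
  (∀ (N : ℕ) (x : ℂ), aeval x (P N) = 0 → FF x = 0) ∧
    TendstoLocallyUniformly (fun (N : ℕ) (x : ℂ) => aeval x (P N)) FF atTop

/-- the complex roots of a real polynomial, with multiplicity -/
noncomputable def Rts (P : ℝ[X]) : Multiset ℂ := P.aroots ℂ

/-- Laplace transform -/
noncomputable def Lp (f : ℝ → ℂ) (s : ℂ) : ℂ := ∫ v in Ioi (0 : ℝ), Complex.exp (-(s * v)) * f v

/-- two-sided transform of a test function -/
noncomputable def Th (φ : ℝ → ℂ) (s : ℂ) : ℂ := ∫ v : ℝ, Complex.exp (s * v) * φ v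

/-- test functions: smooth, compactly supported in `[1, ∞)` -/
def Test (φ : ℝ → ℂ) : Prop :=
  ContDiff ℝ (⊤ : ℕ∞) φ ∧ HasCompactSupport φ ∧ ∀ v : ℝ, v < 1 → φ v = 0

/-- exceptions to Robin's inequality `σ(n) < e^γ n log log n` -/
def Exc (n : ℕ) : Prop := 3 ≤ n ∧ Real.exp Real.eulerMascheroniConstant * n * Real.log (Real.log n) ≤
  (ArithmeticFunction.sigma 1 n : ℝ)

/-- the number of exceptions up to `x` -/
noncomputable def NN (x : ℝ) : ℕ := {n : ℕ | Exc n ∧ (n : ℝ) ≤ x}.ncard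

/-- the supremum of the real parts of the zeros of zeta in the critical strip -/
noncomputable def Theta : ℝ :=
  sSup (Complex.re '' {s : ℂ | riemannZeta s = 0 ∧ 0 < s.re ∧ s.re < 1})

/-- `log (σ(p^j)/p^j) - log (σ(p^(j-1))/p^(j-1))` for `j ≥ 1` -/
noncomputable def wt (p j : ℕ) : ℝ :=
  Real.log ((1 - ((p : ℝ) ^ (j + 1))⁻¹) / (1 - ((p : ℝ) ^ j)⁻¹))

/-- `∑_{p ≤ Y} ∑_{j ≤ Y} max (wt p j - log p / (Y log Y), 0)` -/
noncomputable def Fb (Y : ℝ) : ℝ :=
  ∑ p ∈ (Finset.Icc 1 ⌊Y⌋₊).filter Nat.Prime, ∑ j ∈ Finset.Icc 1 ⌊Y⌋₊,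
    max (wt p j - Real.log p / (Y * Real.log Y)) 0

end Pool.Agent.TH896.RC
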